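import Pool.Agent.H21.L.R_seed8.W189.ML.Sector
import Pool.Agent.H21.L.R_seed8.W189.ML.Grow

/-! The elliptic curve instance. -/

set_option autoImplicit false

namespace Pool.Agent.W189.ML

open MeasureTheory Filter Topology Set Classical
open Pool.Agent.W263.BSD
open scoped ComplexConjugate

variable {a b : ℤ} {F : ℂ → ℂ}

theorem PhiF_conj (hF : IsLSeries a b F) (z : ℂ) :
    conj (PhiF a b F (conj z)) = PhiF a b F z := by
  have D := data (a := a) (b := b) 0 hF
  set f : ℂ → ℂ := conj ∘ PhiF a b F ∘ conj with hf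
  have hd : Differentiable ℂ f := fun z => by
    have h := (PhiF_differentiable hF (conj z)).conj_conj
    rw [Complex.conj_conj] at h
    exact h
  have h1 : AnalyticOnNhd ℂ f univ := hd.differentiableOn.analyticOnNhd isOpen_univ
  have h2 : AnalyticOnNhd ℂ (PhiF a b F) univ :=
    (PhiF_differentiable hF).differentiableOn.analyticOnNhd isOpen_univ
  have h3 : ∃ᶠ z in 𝓝[≠] (3 : ℂ), f z = PhiF a b F z := by
    have hreal : ∀ w : ℝ, 2 < w → f w = PhiF a b F w := by
      intro w hw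
      have h4 := D.real_eq (s := 2) zero_le_two D.int hw
      rw [hf]
      simp only [Function.comp_apply, Complex.conj_ofReal]
      rw [h4, Complex.conj_ofReal]
    have h5 : Tendsto (fun n : ℕ => ((3 + 1 / ((n : ℝ) + 1) : ℝ) : ℂ)) atTop (𝓝[≠] (3 : ℂ)) := by
      rw [tendsto_nhdsWithin_iff]
      constructor
      · have h6 : Tendsto (fun n : ℕ => (3 + 1 / ((n : ℝ) + 1) : ℝ)) atTop (𝓝 (3 + 0)) :=
          tendsto_one_div_add_atTop_nhds_zero_nat.const_add 3
        rw [add_zero] at h6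
        have := (Complex.continuous_ofReal.tendsto 3).comp h6
        simpa [Function.comp_def] using this
      · refine Eventually.of_forall fun n => ?_
        simp only [mem_compl_iff, mem_singleton_iff]
        intro h
        have h7 : (3 + 1 / ((n : ℝ) + 1) : ℝ) = 3 := by exact_mod_cast h
        have h8 : (0 : ℝ) < 1 / ((n : ℝ) + 1) := by positivity
        linarith
    refine h5.frequently (Eventually.frequently (Eventually.of_forall fun n => ?_))
    refine hreal _ ?_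
    have h8 : (0 : ℝ) < 1 / ((n : ℝ) + 1) := by positivity
    linarith
  have h4 := h1.eqOn_of_preconnected_of_frequently_eq h2 isPreconnected_univ (mem_univ 3) h3
  exact h4 (mem_univ z)

theorem PhiF_real (hF : IsLSeries a b F) (x : ℝ) : (PhiF a b F x).im = 0 := by
  have h1 := PhiF_conj hF (x : ℂ)
  rw [Complex.conj_ofReal] at h1
  exact Complex.conj_eq_iff_im.1 h1

theorem PhiF_two_pos (hF : IsLSeries a b F) : 0 < (PhiF a b F 2).re := by
  have E := eData a b
  have h1 := exp_eq E (w := 2) (by norm_num) (PhiF_hasProd hF (w := 2) (by norm_num))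
  rw [← h1]
  set g := GG (SS a b) (Ap a b) 2 - ser (fun p : ℕ => Real.log p)
    (fun p => if p ∈ SS a b then cc (Ap a b) p else 0) 2 with hg
  have h2 : g.im = 0 := by
    rw [hg, Complex.sub_im, (sdata E).G2, SData.ser_two, sub_zero]
  have h3 : g = ((g.re : ℝ) : ℂ) := by apply Complex.ext <;> simp [h2]
  rw [h3, ← Complex.ofReal_exp, Complex.ofReal_re]
  exact Real.exp_pos _

/-- zeros of `Φ` on `[0, ∞)` are zeros of `F` -/
theorem PhiF_zero_iff (w : ℝ) (hw : 0 ≤ w) :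
    PhiF a b F w = 0 ↔ F ((1 + w : ℝ) : ℂ) = 0 := by
  unfold PhiF
  have := small_ne_zero_real (a := a) (b := b) hw
  rw [mul_eq_zero]
  push_cast
  constructor
  · rintro (h | h)
    · exact h
    · exact absurd h this
  · intro h
    exact Or.inl h

theorem PhiF_ne_zero_of_one_lt (hF : IsLSeries a b F) {w : ℂ} (hw : 1 < w.re) :
    PhiF a b F w ≠ 0 := by
  have h1 := exp_eq (eData a b) hw (PhiF_hasProd hF hw)
  rw [← h1]
  exact Complex.exp_ne_zero _

theorem order_finite_all (hF : IsLSeries a b F) (z : ℂ) : ∃ m : ℕ, analyticOrderAt F z = m := by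
  have hne : analyticOrderAt F z ≠ ⊤ := by
    intro htop
    rw [analyticOrderAt_eq_top] at htop
    have h1 : AnalyticOnNhd ℂ F univ := hF.1.differentiableOn.analyticOnNhd isOpen_univ
    have h2 := h1.eqOn_zero_of_preconnected_of_eventuallyEq_zero isPreconnected_univ
      (mem_univ z) htop
    have h3 : PhiF a b F 3 = 0 := by
      unfold PhiF
      rw [show F (1 + 3) = 0 from h2 (mem_univ _), zero_mul]
    exact PhiF_ne_zero_of_one_lt hF (w := 3) (by norm_num) h3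
  obtain ⟨r, hr⟩ := ENat.ne_top_iff_exists.mp hne
  exact ⟨r, hr.symm⟩

/-- the quotient of `Φ` by the power of `w - x₀` -/
theorem exists_Q (hF : IsLSeries a b F) {x₀ : ℝ} (h0 : 0 ≤ x₀) (h1 : x₀ ≤ 1) {m : ℕ}
    (hm : analyticOrderAt F ((1 + x₀ : ℝ) : ℂ) = m)
    (hnz : ∀ σ : ℝ, 1 + x₀ < σ → F σ ≠ 0) :
    ∃ Q : ℂ → ℂ, (∀ w, AnalyticAt ℂ Q w) ∧ (∀ w, w ≠ (x₀ : ℂ) → PhiF a b F w = (w - x₀) ^ m * Q w) ∧
      ∃ x₁ : ℝ, 0 ≤ x₁ ∧ x₁ ≤ x₀ ∧ (0 < x₀ → x₁ < x₀) ∧
        ∀ x ∈ Icc x₁ 2, (Q (x : ℂ)).im = 0 ∧ 0 < (Q (x : ℂ)).re := by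
  have hFa : AnalyticAt ℂ F ((1 + x₀ : ℝ) : ℂ) := hF.1.analyticAt _
  obtain ⟨g, hg, hg0, he⟩ := (hFa.analyticOrderAt_eq_natCast).mp hm
  set G : ℂ → ℂ := fun w => g (1 + w) * small a b w with hG
  have hc1 : ((1 : ℂ) + (x₀ : ℂ)) = ((1 + x₀ : ℝ) : ℂ) := by push_cast; rfl
  have hGa : AnalyticAt ℂ G x₀ := by
    refine AnalyticAt.mul ?_ (small_differentiable.analyticAt _)
    refine AnalyticAt.fun_comp (g := g) (f := fun w : ℂ => 1 + w) ?_ ?_
    · rw [hc1]; exact hg
    · fun_prop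
  have hG0 : G x₀ ≠ 0 := by
    rw [hG]
    simp only
    rw [hc1]
    exact mul_ne_zero hg0 (small_ne_zero_real h0)
  have hGe : ∀ᶠ w in 𝓝 (x₀ : ℂ), PhiF a b F w = (w - x₀) ^ m * G w := by
    have h2 : Tendsto (fun w : ℂ => 1 + w) (𝓝 (x₀ : ℂ)) (𝓝 ((1 + x₀ : ℝ) : ℂ)) := by
      have : Continuous fun w : ℂ => 1 + w := by fun_prop
      have := this.tendsto (x₀ : ℂ)
      rwa [hc1] at this
    filter_upwards [h2.eventually he] with w hw
    unfold PhiF
    rw [hw, smul_eq_mul]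
    push_cast
    rw [hG]
    ring
  set Q : ℂ → ℂ := fun w => if w = (x₀ : ℂ) then G x₀ else PhiF a b F w / (w - x₀) ^ m with hQ
  have hQ0 : Q x₀ = G x₀ := by rw [hQ]; simp
  have hQe : Q =ᶠ[𝓝 (x₀ : ℂ)] G := by
    filter_upwards [hGe] with w hw
    rw [hQ]
    simp only
    split_ifs with h
    · rw [h]
    · rw [hw]
      have : w - x₀ ≠ 0 := sub_ne_zero.2 h
      field_simp
  have hQa : ∀ w, AnalyticAt ℂ Q w := by
    intro w
    by_cases h : w = (x₀ : ℂ)
    · rw [h]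
      exact hGa.congr hQe.symm
    · have h2 : Q =ᶠ[𝓝 w] fun w => PhiF a b F w / (w - x₀) ^ m := by
        filter_upwards [isOpen_ne.mem_nhds h] with v hv
        rw [hQ]
        simp only
        rw [if_neg hv]
      refine AnalyticAt.congr ?_ h2.symm
      refine AnalyticAt.div ((PhiF_differentiable hF).analyticAt _) (by fun_prop) ?_
      exact pow_ne_zero _ (sub_ne_zero.2 h)
  have hQf : ∀ w, w ≠ (x₀ : ℂ) → PhiF a b F w = (w - x₀) ^ m * Q w := by
    intro w hw
    rw [hQ]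
    simp only
    rw [if_neg hw]
    have : w - x₀ ≠ 0 := sub_ne_zero.2 hw
    field_simp
  refine ⟨Q, hQa, hQf, ?_⟩
  -- reality
  have hreal' : ∀ x : ℝ, x ≠ x₀ → (Q (x : ℂ)).im = 0 := by
    intro x hx
    have hx' : (x : ℂ) ≠ (x₀ : ℂ) := by exact_mod_cast hx
    have h2 : Q x = ((((PhiF a b F x).re) / (x - x₀) ^ m : ℝ) : ℂ) := by
      have h3 : PhiF a b F x = (((PhiF a b F x).re : ℝ) : ℂ) := by
        apply Complex.ext <;> simp [PhiF_real hF x]
      rw [hQ]
      simp only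
      rw [if_neg hx']
      nth_rewrite 1 [h3]
      push_cast
      rfl
    rw [h2, Complex.ofReal_im]
  have hcontre : Continuous fun x : ℝ => Q (x : ℂ) := by
    have h2 : Continuous Q := continuous_iff_continuousAt.2 fun w => (hQa w).continuousAt
    exact h2.comp Complex.continuous_ofReal
  have hreal : ∀ x : ℝ, (Q (x : ℂ)).im = 0 := by
    intro x
    have h2 : Continuous fun x : ℝ => (Q (x : ℂ)).im := Complex.continuous_im.comp hcontre
    have h3 : IsClosed {x : ℝ | (Q (x : ℂ)).im = 0} := isClosed_eq h2 continuous_const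
    have h4 : Dense {x : ℝ | x ≠ x₀} := dense_compl_singleton x₀
    have h5 : closure {x : ℝ | x ≠ x₀} ⊆ {x : ℝ | (Q (x : ℂ)).im = 0} :=
      h3.closure_subset_iff.2 fun x hx => hreal' x hx
    rw [h4.closure_eq] at h5
    exact h5 (mem_univ x)
  -- nonvanishing on `[x₀, 2]`
  have hnv : ∀ x : ℝ, x₀ ≤ x → Q (x : ℂ) ≠ 0 := by
    intro x hx
    rcases hx.lt_or_eq with h | h
    · intro h2
      have hx' : (x : ℂ) ≠ (x₀ : ℂ) := by exact_mod_cast h.ne'
      have h3 := hQf x hx'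
      rw [h2, mul_zero] at h3
      rw [PhiF_zero_iff x (by linarith)] at h3
      exact hnz (1 + x) (by linarith) h3
    · rw [← h, hQ0]
      exact hG0
  obtain ⟨x₁, hx1, hx2, hx3, hx4⟩ : ∃ x₁ : ℝ, 0 ≤ x₁ ∧ x₁ ≤ x₀ ∧ (0 < x₀ → x₁ < x₀) ∧
      ∀ x ∈ Icc x₁ 2, Q (x : ℂ) ≠ 0 := by
    rcases h0.lt_or_eq with h | h
    · have h2 : ∀ᶠ x : ℝ in 𝓝 x₀, Q (x : ℂ) ≠ 0 :=
        hcontre.continuousAt.eventually_ne (hnv x₀ le_rfl)
      obtain ⟨ε, hε, h3⟩ := Metric.eventually_nhds_iff.1 h2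
      refine ⟨max 0 (x₀ - ε / 2), le_max_left _ _, max_le h0 (by linarith), fun _ =>
        max_lt h (by linarith), fun x hx => ?_⟩
      by_cases hx0 : x₀ ≤ x
      · exact hnv x hx0
      · push Not at hx0
        refine h3 ?_
        have := (le_max_right 0 (x₀ - ε / 2)).trans hx.1
        rw [Real.dist_eq, abs_lt]
        constructor <;> linarith
    · exact ⟨0, le_rfl, h0, fun h2 => absurd h2 (by rw [← h]; exact lt_irrefl 0), fun x hx =>
        hnv x (by rw [← h]; exact hx.1)⟩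
  refine ⟨x₁, hx1, hx2, hx3, fun x hx => ⟨hreal x, ?_⟩⟩
  -- positivity by connectedness
  have hq2 : 0 < (Q ((2 : ℝ) : ℂ)).re := by
    have h2 : ((2 : ℝ) : ℂ) ≠ (x₀ : ℂ) := by
      have : (2 : ℝ) ≠ x₀ := by linarith
      exact_mod_cast this
    have h3 := hQf _ h2
    have h4 : (((2 : ℝ) : ℂ) - x₀) ^ m = (((2 - x₀) ^ m : ℝ) : ℂ) := by push_cast; rfl
    rw [h4] at h3
    have h5 : (PhiF a b F ((2 : ℝ) : ℂ)).re = (2 - x₀) ^ m * (Q ((2 : ℝ) : ℂ)).re := by
      rw [h3, Complex.re_ofReal_mul]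
    have h6 : 0 < (PhiF a b F ((2 : ℝ) : ℂ)).re := by
      have := PhiF_two_pos hF
      simpa using this
    rw [h5] at h6
    have h7 : 0 < (2 - x₀) ^ m := pow_pos (by linarith) m
    exact (mul_pos_iff_of_pos_left h7).1 h6
  by_contra hneg
  push Not at hneg
  have hcr : ContinuousOn (fun x : ℝ => (Q (x : ℂ)).re) (Icc x 2) :=
    (Complex.continuous_re.comp hcontre).continuousOn
  have h2 := intermediate_value_Icc hx.2 hcr
  obtain ⟨y, hy1, hy2⟩ := h2 (show (0 : ℝ) ∈ Icc (Q (x : ℂ)).re (Q ((2 : ℝ) : ℂ)).re from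
    ⟨hneg, hq2.le⟩)
  refine hx4 y ⟨hx.1.trans hy1.1, hy1.2⟩ ?_
  apply Complex.ext
  · simpa using hy2
  · simpa using hreal y

end Pool.Agent.W189.ML
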