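import Pool.Agent.H21.L.R_seed8.W189.ML.Curve

/-! The Mittag-Leffler mean of the Birch and Swinnerton-Dyer product. -/

set_option autoImplicit false

namespace Pool.Agent.W189.ML

open MeasureTheory Filter Topology Set Classical
open Pool.Agent.W263.BSD

/-- `∑_p log ((N_p + 1)/p) / Γ(1 + log p / log X)`, the logarithm of the product of the numbers
`(N_p + 1)/p` over the good primes, smoothed by the Mittag-Leffler weights `1 / Γ(1 + v)`. -/
noncomputable def mlSum (a b : ℤ) (X : ℝ) : ℝ :=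
  ∑' p : ℕ, if GoodPrime a b p then
    Real.log (((pointCount a b p : ℝ) + 1) / p) / Real.Gamma (1 + Real.log p / Real.log X) else 0

variable {a b : ℤ} {F : ℂ → ℂ}

/-- coefficients -/
noncomputable def cf (a b : ℤ) (p : ℕ) : ℝ := if p ∈ SS a b then cc (Ap a b) p else 0

theorem cf_le (p : ℕ) (v : ℝ) (hv : 0 ≤ v) {T : ℝ} (hT : 0 < T) (hv2 : v = Real.log p / T) :
    |cf a b p * om v| ≤ (Real.exp (Real.exp (2 * T)) + 1) * (p : ℝ) ^ (-2 : ℝ) := by
  unfold cf
  by_cases hp : p ∈ SS a b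
  · have h25 : 25 ≤ p := hp.2
    have hp0 : (0 : ℝ) < p := by
      have : 0 < p := by omega
      exact_mod_cast this
    rw [if_pos hp, abs_mul, abs_of_nonneg (om_nonneg hv)]
    have h1 := (eData a b).cc_abs hp
    have h2 := om_le (a := 2 * T) (by positivity) hv
    have h3 : Real.exp (-(2 * T * v)) = (p : ℝ) ^ (-2 : ℝ) := by
      rw [Real.rpow_def_of_pos hp0, hv2]
      congr 1
      field_simp
    rw [h3] at h2
    calc |cc (Ap a b) p| * om v ≤ 1 * ((Real.exp (Real.exp (2 * T)) + 1) * (p : ℝ) ^ (-2 : ℝ)) :=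
          mul_le_mul h1 h2 (om_nonneg hv) zero_le_one
      _ = _ := by ring
  · rw [if_neg hp, zero_mul, abs_zero]
    positivity

/-- term of the finite correction -/
noncomputable def ft (a b : ℤ) (T : ℝ) (p : ℕ) : ℝ :=
  if p < 25 ∧ GoodPrime a b p then lp a b p * om (Real.log p / T) else 0

theorem term_eq (T : ℝ) (p : ℕ) :
    (if GoodPrime a b p then
      Real.log (((pointCount a b p : ℝ) + 1) / p) / Real.Gamma (1 + Real.log p / T) else 0) =
    cf a b p * om (Real.log p / T) + ft a b T p := by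
  unfold cf ft
  by_cases hg : GoodPrime a b p
  · by_cases h25 : 25 ≤ p
    · have hS : p ∈ SS a b := ⟨hg, h25⟩
      rw [if_pos hg, if_pos hS, if_neg (by omega), cc_eq_lp (by omega), add_zero]
      unfold Pool.Agent.W263.BSD.lp om
      rw [div_eq_mul_inv]
    · have hS : p ∉ SS a b := fun h => h25 h.2
      rw [if_pos hg, if_neg hS, if_pos ⟨by omega, hg⟩, zero_mul, zero_add]
      unfold Pool.Agent.W263.BSD.lp om
      rw [div_eq_mul_inv]
  · have hS : p ∉ SS a b := fun h => hg h.1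
    rw [if_neg hg, if_neg hS, if_neg (fun h => hg h.2)]
    simp

theorem ft_zero (T : ℝ) {p : ℕ} (hp : p ∉ Finset.range 25) : ft a b T p = 0 := by
  rw [Finset.mem_range] at hp
  unfold ft
  rw [if_neg (fun h => hp h.1)]

theorem cf_summable {T : ℝ} (hT : 0 < T) :
    Summable fun p : ℕ => |cf a b p * om (Real.log p / T)| := by
  refine Summable.of_nonneg_of_le (fun p => abs_nonneg _) (fun p => cf_le (a := a) (b := b) p _
    (by have := Real.log_natCast_nonneg p; positivity) hT rfl) ?_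
  exact (Real.summable_nat_rpow.mpr (by norm_num : (-2 : ℝ) < -1)).mul_left _

theorem ml_summable {X : ℝ} (hX : 1 < X) :
    Summable fun p : ℕ => if GoodPrime a b p then
      |Real.log (((pointCount a b p : ℝ) + 1) / p)| / Real.Gamma (1 + Real.log p / Real.log X)
      else 0 := by
  have hT := Real.log_pos hX
  have h1 : Summable fun p : ℕ => |if GoodPrime a b p then
    Real.log (((pointCount a b p : ℝ) + 1) / p) / Real.Gamma (1 + Real.log p / Real.log X)
      else 0| := by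
    simp only [term_eq]
    exact ((cf_summable (a := a) (b := b) hT).of_abs.add
      (summable_of_ne_finset_zero (s := Finset.range 25) fun p hp => ft_zero _ hp)).abs
  refine h1.congr fun p => ?_
  split_ifs
  · rw [abs_div, abs_of_pos (Real.Gamma_pos_of_pos _)]
    have := Real.log_natCast_nonneg p
    positivity
  · simp

theorem mlSum_eq {T : ℝ} (hT : 0 < T) {X : ℝ} (hX : Real.log X = T) :
    mlSum a b X = mean (fun p : ℕ => Real.log p) (cf a b) T + ∑ p ∈ Finset.range 25, ft a b T p := by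
  unfold mlSum mean
  rw [hX]
  simp only [term_eq]
  rw [(cf_summable (a := a) (b := b) hT).of_abs.tsum_add
    (summable_of_ne_finset_zero (s := Finset.range 25) fun p hp => ft_zero _ hp),
    tsum_eq_sum (s := Finset.range 25) fun p hp => ft_zero _ hp]

theorem ft_bound (a b : ℤ) : ∃ B : ℝ, 0 ≤ B ∧ ∀ T : ℝ, 0 < T →
    |∑ p ∈ Finset.range 25, ft a b T p| ≤ B := by
  refine ⟨∑ p ∈ Finset.range 25, |lp a b p| * (Real.exp 1 + 1), by positivity, fun T hT => ?_⟩
  refine (Finset.abs_sum_le_sum_abs _ _).trans (Finset.sum_le_sum fun p _ => ?_)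
  have hv : 0 ≤ Real.log p / T := by
    have := Real.log_natCast_nonneg p
    positivity
  unfold ft
  split_ifs
  · rw [abs_mul, abs_of_nonneg (om_nonneg hv)]
    exact mul_le_mul_of_nonneg_left (om_le_const hv) (abs_nonneg _)
  · rw [abs_zero]
    positivity

theorem mean_bound (a b : ℤ) (T₁ : ℝ) : ∃ B : ℝ, ∀ T : ℝ, 0 < T → T ≤ T₁ →
    |mean (fun p : ℕ => Real.log p) (cf a b) T| ≤ B := by
  refine ⟨∑' p : ℕ, (Real.exp (Real.exp (2 * T₁)) + 1) * (p : ℝ) ^ (-2 : ℝ), fun T hT hT1 => ?_⟩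
  have hs : Summable fun p : ℕ => (Real.exp (Real.exp (2 * T₁)) + 1) * (p : ℝ) ^ (-2 : ℝ) :=
    (Real.summable_nat_rpow.mpr (by norm_num : (-2 : ℝ) < -1)).mul_left _
  unfold mean
  rw [← Real.norm_eq_abs]
  refine tsum_of_norm_bounded hs.hasSum fun p => ?_
  rw [Real.norm_eq_abs]
  refine (cf_le (a := a) (b := b) p _
    (by have := Real.log_natCast_nonneg p; positivity) hT rfl).trans ?_
  gcongr

/-- the rightmost real zero -/
theorem exists_rightmost (hF : IsLSeries a b F) : ∃ x₀ : ℝ, 0 ≤ x₀ ∧ x₀ ≤ 1 ∧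
    (∀ σ : ℝ, 1 + x₀ < σ → F σ ≠ 0) ∧ (x₀ = 0 ∨ F ((1 + x₀ : ℝ) : ℂ) = 0) := by
  set Z : Set ℝ := {x | x ∈ Icc (0 : ℝ) 1 ∧ F ((1 + x : ℝ) : ℂ) = 0} with hZ
  have hbig : ∀ σ : ℝ, 2 < σ → F σ ≠ 0 := by
    intro σ hσ h
    have h1 := PhiF_ne_zero_of_one_lt hF (w := ((σ - 1 : ℝ) : ℂ)) (by
      rw [Complex.ofReal_re]; linarith)
    rw [Ne, PhiF_zero_iff (σ - 1) (by linarith)] at h1
    apply h1
    rw [show (1 + (σ - 1) : ℝ) = σ by ring]
    exact h
  have hcZ : IsCompact Z := by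
    have h1 : Continuous fun x : ℝ => F ((1 + x : ℝ) : ℂ) := hF.1.continuous.comp (by fun_prop)
    have h2 : IsClosed {x : ℝ | F ((1 + x : ℝ) : ℂ) = 0} := isClosed_eq h1 continuous_const
    exact isCompact_Icc.inter_right h2
  by_cases hne : Z.Nonempty
  · have h1 := hcZ.sSup_mem hne
    refine ⟨sSup Z, h1.1.1, h1.1.2, fun σ hσ h => ?_, Or.inr h1.2⟩
    by_cases h2 : 2 < σ
    · exact hbig σ h2 h
    · push Not at h2
      have h3 : σ - 1 ∈ Z := by
        refine ⟨⟨by linarith [h1.1.1], by linarith⟩, ?_⟩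
        rw [show (1 + (σ - 1) : ℝ) = σ by ring]
        exact h
      have := le_csSup hcZ.bddAbove h3
      linarith
  · refine ⟨0, le_rfl, zero_le_one, fun σ hσ h => ?_, Or.inl rfl⟩
    by_cases h2 : 2 < σ
    · exact hbig σ h2 h
    · push Not at h2
      refine hne ⟨σ - 1, ⟨by linarith, by linarith⟩, ?_⟩
      rw [show (1 + (σ - 1) : ℝ) = σ by ring]
      exact h

/-- the asymptotic formula -/
theorem asymp (hF : IsLSeries a b F) {x₀ : ℝ} (h0 : 0 ≤ x₀) (h1 : x₀ ≤ 1) {m : ℕ}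
    (hm : analyticOrderAt F ((1 + x₀ : ℝ) : ℂ) = m)
    (hnz : ∀ σ : ℝ, 1 + x₀ < σ → F σ ≠ 0) :
    ∃ x₁ : ℝ, 0 ≤ x₁ ∧ x₁ ≤ x₀ ∧ (0 < x₀ → x₁ < x₀) ∧ ∃ C T₀ : ℝ, 0 ≤ C ∧ 1 ≤ T₀ ∧
      ∀ X : ℝ, T₀ ≤ Real.log X →
      |mlSum a b X - m * (Real.log (Real.log X) + grow (x₀ * Real.log X))| ≤
        C * Real.exp (Real.exp (x₁ * Real.log X)) := by
  obtain ⟨Q, hQa, hQf, x₁, hx1, hx2, hx3, hx4⟩ := exists_Q hF h0 h1 hm hnz
  have E := eData a b
  have h2x : (2 : ℂ) ≠ (x₀ : ℂ) := by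
    have : (2 : ℝ) ≠ x₀ := by linarith
    exact_mod_cast this
  have hev : ∀ᶠ w in 𝓝 (2 : ℂ), Complex.exp (GG (SS a b) (Ap a b) w -
      ser (fun p : ℕ => Real.log p) (fun p => if p ∈ SS a b then cc (Ap a b) p else 0) w) =
      (w - x₀) ^ (m : ℤ) * Q w := by
    have e1 : {w : ℂ | 1 < w.re} ∈ 𝓝 (2 : ℂ) :=
      (isOpen_lt continuous_const Complex.continuous_re).mem_nhds (by simp)
    filter_upwards [e1, isOpen_ne.mem_nhds h2x] with w hw hw2
    rw [exp_eq E hw (PhiF_hasProd hF hw), hQf w hw2, zpow_natCast]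
  obtain ⟨C, T₀, hC⟩ := (sdata E).main hx1 hx2 h1 (m : ℤ) Q (fun x _ => hQa _)
    (fun x hx => Or.inl (hx4 x hx).2) (by
      obtain ⟨h3, h4⟩ := hx4 2 ⟨by linarith, le_rfl⟩
      have h5 : Q 2 = (((Q 2).re : ℝ) : ℂ) := by
        apply Complex.ext
        · simp
        · simpa using h3
      rw [h5, ← Complex.ofReal_log (by simpa using h4.le), Complex.ofReal_im]) hev (ser_cont_two E)
  obtain ⟨B, hB0, hB⟩ := ft_bound a b
  refine ⟨x₁, hx1, hx2, hx3, |C| + B, max T₀ 1, by positivity, le_max_right _ _, fun X hX => ?_⟩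
  set T := Real.log X with hT
  have hT1 : 1 ≤ T := (le_max_right _ _).trans hX
  have h3 := hC T ((le_max_left _ _).trans hX)
  have h4 := hB T (by linarith)
  have hms : mlSum a b X = mean (fun p : ℕ => Real.log p) (cf a b) T +
      ∑ p ∈ Finset.range 25, ft a b T p := mlSum_eq (by linarith) hT.symm
  have hcf : (fun p => if p ∈ SS a b then cc (Ap a b) p else 0) = cf a b := rfl
  rw [hcf] at h3
  rw [hms]
  set ee := Real.exp (Real.exp (x₁ * T)) with hee
  have h1e : 1 ≤ ee := Real.one_le_exp (Real.exp_pos _).le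
  have h5 : C * ee ≤ |C| * ee := by gcongr; exact le_abs_self C
  have h6 := abs_le.mp h3
  have h7 := abs_le.mp h4
  have h8 : B ≤ B * ee := le_mul_of_one_le_right hB0 h1e
  push_cast at h6
  rw [abs_le]
  constructor <;> nlinarith [h6.1, h6.2, h7.1, h7.2]

end Pool.Agent.W189.ML
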