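import Pool.Agent.H21.L.R_seed8.W189.ML.Hankel

/-! Calculus with the contour integral: admissible integrands, linearity, bounds, Fubini. -/

set_option autoImplicit false

namespace Pool.Agent.W189.ML

open Complex MeasureTheory Filter Topology Set
open scoped Interval

/-- the closed half strip -/
def HS (a : ℝ) : Set ℂ := {z | a ≤ z.re ∧ |z.im| ≤ Real.pi}

theorem HS_mono {a b : ℝ} (h : a ≤ b) : HS b ⊆ HS a := fun _ hz => ⟨h.trans hz.1, hz.2⟩

theorem vert_mem {a y : ℝ} (h1 : -Real.pi ≤ y) (h2 : y ≤ Real.pi) : (a : ℂ) + y * I ∈ HS a := by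
  constructor
  · simp
  · simpa using abs_le.2 ⟨h1, h2⟩

theorem up_mem {a x : ℝ} (h : a ≤ x) : (x : ℂ) + Real.pi * I ∈ HS a := by
  constructor
  · simpa using h
  · simp [abs_of_pos Real.pi_pos]

theorem down_mem {a x : ℝ} (h : a ≤ x) : (x : ℂ) - Real.pi * I ∈ HS a := by
  constructor
  · simpa using h
  · simp [abs_of_pos Real.pi_pos]

/-- admissible integrands -/
structure Adm (a : ℝ) (Φ : ℂ → ℂ) : Prop where
  cont : ContinuousOn Φ (HS a)
  bound : ∃ A B : ℝ, 0 ≤ A ∧ 0 ≤ B ∧ ∀ z ∈ HS a, ‖Φ z‖ ≤ A + B * z.re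

variable {a b : ℝ} {Φ Ψ : ℂ → ℂ}

theorem Adm.mono (h : Adm a Φ) (hab : a ≤ b) : Adm b Φ := by
  obtain ⟨A, B, hA, hB, hb⟩ := h.bound
  exact ⟨h.cont.mono (HS_mono hab), A, B, hA, hB, fun z hz => hb z (HS_mono hab hz)⟩

theorem Adm.vint (h : Adm a Φ) :
    IntervalIntegrable (fun y : ℝ => K (a + y * I) * Φ (a + y * I)) volume (-Real.pi) Real.pi := by
  refine ContinuousOn.intervalIntegrable ?_
  refine ContinuousOn.mul (continuous_K.comp (by fun_prop)).continuousOn ?_
  refine h.cont.comp (by fun_prop) ?_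
  intro y hy
  rw [uIcc_of_le (by linarith [Real.pi_pos])] at hy
  exact vert_mem hy.1 hy.2

theorem exp_mul_le {x : ℝ} (hx : 0 ≤ x) : Real.exp (-Real.exp x) ≤ Real.exp (-x) ∧
    Real.exp (-Real.exp x) * x ≤ Real.exp (-x) := by
  have h1 := Real.quadratic_le_exp_of_nonneg hx
  constructor
  · apply Real.exp_le_exp.2
    nlinarith [sq_nonneg x]
  · have h2 : x ≤ Real.exp (x ^ 2 / 2) := by
      have := Real.add_one_le_exp (x ^ 2 / 2)
      nlinarith [sq_nonneg (x - 1)]
    calc Real.exp (-Real.exp x) * x ≤ Real.exp (-Real.exp x) * Real.exp (x ^ 2 / 2) := by gcongr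
      _ = Real.exp (-Real.exp x + x ^ 2 / 2) := by rw [Real.exp_add]
      _ ≤ Real.exp (-x) := Real.exp_le_exp.2 (by linarith)

theorem norm_rho_le (ha : 0 ≤ a) {A B : ℝ} (hA : 0 ≤ A) (hB : 0 ≤ B)
    {x : ℝ} (hx : a ≤ x) (h1 : ‖Φ (x + Real.pi * I)‖ ≤ A + B * x)
    (h2 : ‖Φ (x - Real.pi * I)‖ ≤ A + B * x) :
    ‖rho Φ x‖ ≤ (A + B) * Real.exp (-x) := by
  unfold rho
  rw [norm_mul, norm_mul, norm_inv, Complex.norm_real, Real.norm_eq_abs, Real.abs_exp]
  have h3 : ‖(2 * Real.pi * I : ℂ)‖ = 2 * Real.pi := by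
    rw [norm_mul, norm_mul, Complex.norm_I, Complex.norm_real, Real.norm_eq_abs,
      abs_of_pos Real.pi_pos]
    norm_num
  rw [h3]
  have h4 : ‖Φ (x + Real.pi * I) - Φ (x - Real.pi * I)‖ ≤ 2 * (A + B * x) := by
    refine (norm_sub_le _ _).trans (by linarith)
  obtain ⟨e1, e2⟩ := exp_mul_le (ha.trans hx)
  have h5 : (2 * Real.pi)⁻¹ ≤ 1 / 2 := by
    rw [inv_le_comm₀ (by positivity) (by norm_num)]
    have := Real.pi_gt_three
    norm_num
    linarith
  calc (2 * Real.pi)⁻¹ * (Real.exp (-Real.exp x) * ‖Φ (x + Real.pi * I) - Φ (x - Real.pi * I)‖)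
      ≤ (1 / 2) * (Real.exp (-Real.exp x) * (2 * (A + B * x))) := by gcongr
    _ = A * Real.exp (-Real.exp x) + B * (Real.exp (-Real.exp x) * x) := by ring
    _ ≤ A * Real.exp (-x) + B * Real.exp (-x) := by gcongr
    _ = _ := by ring

theorem Adm.rint (ha : 0 ≤ a) (h : Adm a Φ) : IntegrableOn (rho Φ) (Ioi a) := by
  obtain ⟨A, B, hA, hB, hb⟩ := h.bound
  have hg : IntegrableOn (fun x : ℝ => (A + B) * Real.exp (-x)) (Ioi a) :=
    (integrableOn_exp_neg_Ioi a).const_mul _
  refine Integrable.mono' hg ?_ ?_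
  · refine ContinuousOn.aestronglyMeasurable ?_ measurableSet_Ioi
    unfold rho
    refine continuousOn_const.mul (ContinuousOn.mul (by fun_prop) (ContinuousOn.sub ?_ ?_))
    · exact h.cont.comp (by fun_prop) fun x hx => up_mem (le_of_lt hx)
    · exact h.cont.comp (by fun_prop) fun x hx => down_mem (le_of_lt hx)
  · filter_upwards [ae_restrict_mem measurableSet_Ioi] with x hx
    have hx' : a ≤ x := le_of_lt hx
    refine norm_rho_le ha hA hB hx' ?_ ?_
    · have := hb _ (up_mem hx')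
      simpa using this
    · have := hb _ (down_mem hx')
      simpa using this

theorem norm_V_le {M : ℝ} (h : ∀ y : ℝ, |y| ≤ Real.pi → ‖Φ (a + y * I)‖ ≤ M) :
    ‖V a Φ‖ ≤ Real.exp (Real.exp a) * M := by
  have hM : 0 ≤ M := (norm_nonneg _).trans (h 0 (by simp [Real.pi_pos.le]))
  unfold V
  rw [norm_mul, norm_inv]
  have h1 : ‖(2 * Real.pi : ℂ)‖ = 2 * Real.pi := by
    rw [norm_mul, Complex.norm_real, Real.norm_eq_abs, abs_of_pos Real.pi_pos]
    norm_num
  rw [h1]
  have h2 : ‖∫ y in (-Real.pi)..Real.pi, K (a + y * I) * Φ (a + y * I)‖ ≤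
      (Real.exp (Real.exp a) * M) * |Real.pi - -Real.pi| := by
    refine intervalIntegral.norm_integral_le_of_norm_le_const fun y hy => ?_
    rw [uIoc_of_le (by linarith [Real.pi_pos])] at hy
    rw [norm_mul]
    exact mul_le_mul (norm_K_le a y) (h y (abs_le.2 ⟨hy.1.le, hy.2⟩)) (norm_nonneg _)
      (Real.exp_pos _).le
  have h3 : |Real.pi - -Real.pi| = 2 * Real.pi := by
    rw [sub_neg_eq_add, ← two_mul, abs_of_pos (by positivity)]
  rw [h3] at h2
  calc (2 * Real.pi)⁻¹ * _ ≤ (2 * Real.pi)⁻¹ *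
      ((Real.exp (Real.exp a) * M) * (2 * Real.pi)) :=
        mul_le_mul_of_nonneg_left h2 (by positivity)
    _ = _ := by
      have := Real.pi_pos
      field_simp

theorem norm_rays_le (ha : 0 ≤ a) {A B : ℝ} (hA : 0 ≤ A) (hB : 0 ≤ B) {s : Set ℝ}
    (h1 : ∀ x ∈ s, ‖Φ (x + Real.pi * I)‖ ≤ A + B * x)
    (h2 : ∀ x ∈ s, ‖Φ (x - Real.pi * I)‖ ≤ A + B * x) (hs : s ⊆ Ioi a)
    (hsm : MeasurableSet s) :
    ‖∫ x in s, rho Φ x‖ ≤ A + B := by
  have hg : IntegrableOn (fun x : ℝ => (A + B) * Real.exp (-x)) (Ioi a) :=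
    (integrableOn_exp_neg_Ioi a).const_mul _
  have h3 : ‖∫ x in s, rho Φ x‖ ≤ ∫ x in s, (A + B) * Real.exp (-x) := by
    refine norm_integral_le_of_norm_le (hg.mono_set hs) ?_
    filter_upwards [ae_restrict_mem hsm] with x hx
    have hx' : a ≤ x := le_of_lt (hs hx)
    exact norm_rho_le ha hA hB hx' (h1 x hx) (h2 x hx)
  have h4 : ∫ x in s, (A + B) * Real.exp (-x) ≤ ∫ x in Ioi a, (A + B) * Real.exp (-x) :=
    setIntegral_mono_set hg (ae_of_all _ fun x => by positivity) (ae_of_all _ hs)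
  have h5 : ∫ x in Ioi a, (A + B) * Real.exp (-x) = (A + B) * Real.exp (-a) := by
    rw [integral_const_mul, integral_exp_neg_Ioi]
  have h6 : Real.exp (-a) ≤ 1 := Real.exp_le_one_iff.2 (by linarith)
  calc _ ≤ (A + B) * Real.exp (-a) := h3.trans (h4.trans h5.le)
    _ ≤ (A + B) * 1 := by gcongr
    _ = A + B := by ring

theorem norm_J_le (ha : 0 ≤ a) {M : ℝ} (h : ∀ z ∈ HS a, ‖Φ z‖ ≤ M) :
    ‖J a Φ‖ ≤ (Real.exp (Real.exp a) + 1) * M := by
  have hM : 0 ≤ M := (norm_nonneg _).trans (h (a + ((0 : ℝ) : ℂ) * I) (vert_mem (by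
    linarith [Real.pi_pos]) Real.pi_pos.le))
  unfold J
  refine (norm_add_le _ _).trans ?_
  have h1 := norm_V_le (a := a) (Φ := Φ) (M := M) fun y hy =>
    h _ (vert_mem (abs_le.1 hy).1 (abs_le.1 hy).2)
  have h2 := norm_rays_le (Φ := Φ) ha hM le_rfl (fun x (hx : x ∈ Ioi a) => by
    have := h _ (up_mem (le_of_lt hx)); linarith) (fun x hx => by
    have := h _ (down_mem (le_of_lt hx)); linarith) (subset_refl (Ioi a)) measurableSet_Ioi
  linarith

theorem V_add (h : Adm a Φ) (h' : Adm a Ψ) : V a (fun z => Φ z + Ψ z) = V a Φ + V a Ψ := by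
  unfold V
  rw [← mul_add, ← intervalIntegral.integral_add h.vint h'.vint]
  congr 1
  refine intervalIntegral.integral_congr fun y _ => ?_
  ring

theorem V_sub (h : Adm a Φ) (h' : Adm a Ψ) : V a (fun z => Φ z - Ψ z) = V a Φ - V a Ψ := by
  unfold V
  rw [← mul_sub, ← intervalIntegral.integral_sub h.vint h'.vint]
  congr 1
  refine intervalIntegral.integral_congr fun y _ => ?_
  ring

theorem V_const_mul (c : ℂ) : V a (fun z => c * Φ z) = c * V a Φ := by
  have h1 : ∫ y in (-Real.pi)..Real.pi, K (a + y * I) * (c * Φ (a + y * I)) =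
      c * ∫ y in (-Real.pi)..Real.pi, K (a + y * I) * Φ (a + y * I) := by
    rw [← intervalIntegral.integral_const_mul]
    refine intervalIntegral.integral_congr fun y _ => ?_
    ring
  unfold V
  rw [h1]
  ring

theorem V_congr (h : ∀ y : ℝ, |y| ≤ Real.pi → Φ (a + y * I) = Ψ (a + y * I)) : V a Φ = V a Ψ := by
  have h1 : ∫ y in (-Real.pi)..Real.pi, K (a + y * I) * Φ (a + y * I) =
      ∫ y in (-Real.pi)..Real.pi, K (a + y * I) * Ψ (a + y * I) := by
    refine intervalIntegral.integral_congr fun y hy => ?_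
    rw [uIcc_of_le (by linarith [Real.pi_pos])] at hy
    rw [h y (abs_le.2 hy)]
  unfold V
  rw [h1]

theorem rho_sub_fun (Φ Ψ : ℂ → ℂ) (x : ℝ) : rho (fun z => Φ z - Ψ z) x = rho Φ x - rho Ψ x := by
  unfold rho; ring

theorem rho_const_mul (c : ℂ) (Φ : ℂ → ℂ) (x : ℝ) : rho (fun z => c * Φ z) x = c * rho Φ x := by
  unfold rho; ring

theorem J_sub (ha : 0 ≤ a) (h : Adm a Φ) (h' : Adm a Ψ) :
    J a (fun z => Φ z - Ψ z) = J a Φ - J a Ψ := by
  unfold J
  rw [V_sub h h', setIntegral_congr_fun measurableSet_Ioi (fun x _ => rho_sub_fun Φ Ψ x),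
    integral_sub (h.rint ha) (h'.rint ha)]
  ring

theorem J_const_mul (c : ℂ) : J a (fun z => c * Φ z) = c * J a Φ := by
  unfold J
  rw [V_const_mul, setIntegral_congr_fun measurableSet_Ioi (fun x _ => rho_const_mul c Φ x),
    integral_const_mul]
  ring

theorem J_congr (h : ∀ z ∈ HS a, Φ z = Ψ z) : J a Φ = J a Ψ := by
  unfold J
  rw [V_congr (Φ := Φ) (Ψ := Ψ) fun y hy => h _ (vert_mem (abs_le.1 hy).1 (abs_le.1 hy).2)]
  congr 1
  refine setIntegral_congr_fun measurableSet_Ioi fun x hx => ?_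
  unfold rho
  rw [h _ (up_mem (le_of_lt hx)), h _ (down_mem (le_of_lt hx))]

theorem uIcc_subset_HS (hab : a ≤ b) : ([[a, b]] ×ℂ [[-Real.pi, Real.pi]]) ⊆ HS a := by
  intro z hz
  rw [mem_reProdIm, uIcc_of_le hab, uIcc_of_le (by linarith [Real.pi_pos])] at hz
  exact ⟨hz.1.1, abs_le.2 hz.2⟩

theorem J_shift' (ha : 0 ≤ a) (hab : a ≤ b) (h : Adm a Φ) (hd : DifferentiableOn ℂ Φ (HS a)) :
    J a Φ = J b Φ :=
  J_shift hab (hd.mono (uIcc_subset_HS hab)) (h.rint ha)

/-- Fubini's theorem for the contour integral -/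
theorem J_swap (ha : 0 ≤ a) {Ω : Type*} [MeasurableSpace Ω] {μ : Measure Ω} [SFinite μ]
    {F : Ω → ℂ → ℂ} {g : Ω → ℝ} (hg : Integrable g μ)
    (hF : StronglyMeasurable (Function.uncurry F))
    (hb : ∀ ω, ∀ z ∈ HS a, ‖F ω z‖ ≤ g ω) :
    J a (fun z => ∫ ω, F ω z ∂μ) = ∫ ω, J a (F ω) ∂μ := by
  have hpp : -Real.pi ≤ Real.pi := by linarith [Real.pi_pos]
  -- vertical part
  have hmV : AEStronglyMeasurable (fun q : ℝ × Ω => K (a + q.1 * I) * F q.2 (a + q.1 * I))
      ((volume.restrict (Ioc (-Real.pi) Real.pi)).prod μ) := by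
    have h1 : StronglyMeasurable fun q : ℝ × Ω => F q.2 (a + q.1 * I) :=
      hF.comp_measurable (by fun_prop : Measurable fun q : ℝ × Ω => (q.2, (a : ℂ) + q.1 * I))
    have h2 : StronglyMeasurable fun q : ℝ × Ω => K (a + q.1 * I) :=
      (continuous_K.comp (by fun_prop : Continuous fun q : ℝ => (a : ℂ) + q * I)).stronglyMeasurable.comp_measurable
        measurable_fst
    exact (h2.mul h1).aestronglyMeasurable
  have hiV : Integrable (fun q : ℝ × Ω => K (a + q.1 * I) * F q.2 (a + q.1 * I))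
      ((volume.restrict (Ioc (-Real.pi) Real.pi)).prod μ) := by
    have hc : Integrable (fun _ : ℝ => Real.exp (Real.exp a))
        (volume.restrict (Ioc (-Real.pi) Real.pi)) := integrableOn_const (by simp) (by simp)
    refine Integrable.mono' (hc.mul_prod hg) hmV ?_
    have : ∀ᵐ q : ℝ × Ω ∂((volume.restrict (Ioc (-Real.pi) Real.pi)).prod μ),
        q.1 ∈ Ioc (-Real.pi) Real.pi := by
      have := (Measure.quasiMeasurePreserving_fst
        (μ := volume.restrict (Ioc (-Real.pi) Real.pi)) (ν := μ)).ae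
        (ae_restrict_mem (μ := volume) (measurableSet_Ioc (a := -Real.pi) (b := Real.pi)))
      exact this
    filter_upwards [this] with q hq
    rw [norm_mul]
    exact mul_le_mul (norm_K_le _ _) (hb _ _ (vert_mem hq.1.le hq.2)) (norm_nonneg _)
      (Real.exp_pos _).le
  have hV : V a (fun z => ∫ ω, F ω z ∂μ) = ∫ ω, V a (F ω) ∂μ := by
    unfold V
    rw [integral_const_mul]
    congr 1
    rw [intervalIntegral.integral_of_le hpp]
    have h1 : ∀ y : ℝ, K (a + y * I) * ∫ ω, F ω (a + y * I) ∂μ =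
        ∫ ω, K (a + y * I) * F ω (a + y * I) ∂μ := fun y => (integral_const_mul _ _).symm
    simp only [h1]
    rw [integral_integral_swap (f := fun (y : ℝ) ω => K (a + y * I) * F ω (a + y * I)) hiV]
    refine integral_congr_ae (ae_of_all _ fun ω => ?_)
    simp only
    rw [intervalIntegral.integral_of_le hpp]
  -- the rays
  have hmR : StronglyMeasurable (fun q : ℝ × Ω => rho (F q.2) q.1) := by
    unfold rho
    have h1 : StronglyMeasurable fun q : ℝ × Ω => F q.2 (q.1 + Real.pi * I) :=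
      hF.comp_measurable (by fun_prop : Measurable fun q : ℝ × Ω => (q.2, (q.1 : ℂ) + Real.pi * I))
    have h2 : StronglyMeasurable fun q : ℝ × Ω => F q.2 (q.1 - Real.pi * I) :=
      hF.comp_measurable (by fun_prop : Measurable fun q : ℝ × Ω => (q.2, (q.1 : ℂ) - Real.pi * I))
    have h3 : StronglyMeasurable fun q : ℝ × Ω => ((Real.exp (-Real.exp q.1) : ℝ) : ℂ) :=
      (by fun_prop : Continuous fun q : ℝ => ((Real.exp (-Real.exp q) : ℝ) : ℂ)).stronglyMeasurable.comp_measurable
        measurable_fst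
    exact stronglyMeasurable_const.mul (h3.mul (h1.sub h2))
  have hiR : Integrable (fun q : ℝ × Ω => rho (F q.2) q.1)
      ((volume.restrict (Ioi a)).prod μ) := by
    have hc : Integrable (fun x : ℝ => Real.exp (-x)) (volume.restrict (Ioi a)) :=
      integrableOn_exp_neg_Ioi a
    refine Integrable.mono' (hc.mul_prod hg) hmR.aestronglyMeasurable ?_
    have : ∀ᵐ q : ℝ × Ω ∂((volume.restrict (Ioi a)).prod μ), q.1 ∈ Ioi a := by
      have := (Measure.quasiMeasurePreserving_fst
        (μ := volume.restrict (Ioi a)) (ν := μ)).ae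
        (ae_restrict_mem (μ := volume) (measurableSet_Ioi (a := a)))
      exact this
    filter_upwards [this] with q hq
    have hq' : a ≤ q.1 := le_of_lt hq
    have h1 := hb q.2 _ (up_mem hq')
    have h2 := hb q.2 _ (down_mem hq')
    have h0 : 0 ≤ g q.2 := (norm_nonneg _).trans h1
    have := norm_rho_le (Φ := F q.2) ha h0 le_rfl hq' (by linarith) (by linarith)
    rw [add_zero] at this
    linarith
  have hR : ∫ x in Ioi a, rho (fun z => ∫ ω, F ω z ∂μ) x = ∫ ω, (∫ x in Ioi a, rho (F ω) x) ∂μ := by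
    rw [← integral_integral_swap (f := fun (x : ℝ) ω => rho (F ω) x) hiR]
    refine setIntegral_congr_fun measurableSet_Ioi fun x hx => ?_
    have hx' : a ≤ x := le_of_lt hx
    have hm : ∀ z : ℂ, StronglyMeasurable fun ω => F ω z := fun z =>
      hF.comp_measurable (by fun_prop : Measurable fun ω : Ω => (ω, z))
    have i1 : Integrable (fun ω => F ω (x + Real.pi * I)) μ :=
      Integrable.mono' hg (hm _).aestronglyMeasurable (ae_of_all _ fun ω => hb ω _ (up_mem hx'))
    have i2 : Integrable (fun ω => F ω (x - Real.pi * I)) μ :=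
      Integrable.mono' hg (hm _).aestronglyMeasurable (ae_of_all _ fun ω => hb ω _ (down_mem hx'))
    simp only [rho]
    rw [← integral_sub i1 i2, ← integral_const_mul, ← integral_const_mul]
  unfold J
  rw [hV, hR]
  rw [← integral_add]
  · have := hiV.integral_prod_right
    unfold V
    refine Integrable.const_mul ?_ _
    refine this.congr (ae_of_all _ fun ω => ?_)
    simp only
    rw [intervalIntegral.integral_of_le hpp]
  · exact hiR.integral_prod_right

theorem J_hasSum (ha : 0 ≤ a) {ι : Type*} [Countable ι] {F : ι → ℂ → ℂ} {g : ι → ℝ}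
    (hg : Summable g) (hc : ∀ i, Adm a (F i)) (hb : ∀ i, ∀ z ∈ HS a, ‖F i z‖ ≤ g i) :
    HasSum (fun i => J a (F i)) (J a fun z => ∑' i, F i z) := by
  have hpp : -Real.pi ≤ Real.pi := by linarith [Real.pi_pos]
  have hg0 : ∀ i, 0 ≤ g i := fun i => (norm_nonneg _).trans (hb i _ (up_mem (le_refl a)))
  have hV : HasSum (fun i => V a (F i)) (V a fun z => ∑' i, F i z) := by
    have h1 := hasSum_integral_of_summable_integral_norm
      (μ := volume.restrict (Ioc (-Real.pi) Real.pi))
      (F := fun i (y : ℝ) => K (a + y * I) * F i (a + y * I)) (fun i => ?_) ?_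
    · have h2 : ∀ y : ℝ, ∑' i, K (a + y * I) * F i (a + y * I) =
          K (a + y * I) * ∑' i, F i (a + y * I) := fun y => tsum_mul_left
      simp only [h2] at h1
      have h3 := h1.mul_left (2 * Real.pi : ℂ)⁻¹
      unfold V
      simp only [intervalIntegral.integral_of_le hpp]
      exact h3
    · have := (hc i).vint
      rwa [intervalIntegrable_iff_integrableOn_Ioc_of_le hpp] at this
    · refine Summable.of_nonneg_of_le (fun i => by positivity) (fun i => ?_)
        (hg.mul_left (Real.exp (Real.exp a) * (2 * Real.pi)))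
      have h4 : ‖∫ y in Ioc (-Real.pi) Real.pi, ‖K (a + y * I) * F i (a + y * I)‖‖ ≤
          (Real.exp (Real.exp a) * g i) * (volume.real (Ioc (-Real.pi) Real.pi)) := by
        refine norm_setIntegral_le_of_norm_le_const (by simp) fun y hy => ?_
        rw [norm_norm, norm_mul]
        exact mul_le_mul (norm_K_le _ _) (hb _ _ (vert_mem hy.1.le hy.2)) (norm_nonneg _)
          (Real.exp_pos _).le
      have h5 : volume.real (Ioc (-Real.pi) Real.pi) = 2 * Real.pi := by
        rw [Real.volume_real_Ioc_of_le hpp]; ring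
      rw [h5] at h4
      refine (le_abs_self _).trans ?_
      rw [← Real.norm_eq_abs]
      linarith
  have hR : HasSum (fun i => ∫ x in Ioi a, rho (F i) x)
      (∫ x in Ioi a, rho (fun z => ∑' i, F i z) x) := by
    have h1 := hasSum_integral_of_summable_integral_norm (μ := volume.restrict (Ioi a))
      (F := fun i (x : ℝ) => rho (F i) x) (fun i => (hc i).rint ha) ?_
    · have h2 : ∫ x in Ioi a, rho (fun z => ∑' i, F i z) x = ∫ x in Ioi a, ∑' i, rho (F i) x := by
        refine setIntegral_congr_fun measurableSet_Ioi fun x hx => ?_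
        have hx' : a ≤ x := le_of_lt hx
        have s1 : Summable fun i => F i (x + Real.pi * I) :=
          Summable.of_norm_bounded hg fun i => hb i _ (up_mem hx')
        have s2 : Summable fun i => F i (x - Real.pi * I) :=
          Summable.of_norm_bounded hg fun i => hb i _ (down_mem hx')
        simp only [rho]
        rw [← s1.tsum_sub s2, ← tsum_mul_left, ← tsum_mul_left]
      rw [h2]
      exact h1
    · refine Summable.of_nonneg_of_le (fun i => by positivity) (fun i => ?_) hg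
      have h3 : ∀ x ∈ Ioi a, ‖rho (F i) x‖ ≤ g i * Real.exp (-x) := by
        intro x hx
        have hx' : a ≤ x := le_of_lt hx
        have := norm_rho_le (Φ := F i) ha (hg0 i) le_rfl hx'
          (by have := hb i _ (up_mem hx'); linarith) (by have := hb i _ (down_mem hx'); linarith)
        rwa [add_zero] at this
      have h4 : ∫ x in Ioi a, ‖rho (F i) x‖ ≤ ∫ x in Ioi a, g i * Real.exp (-x) :=
        setIntegral_mono_on ((hc i).rint ha).norm ((integrableOn_exp_neg_Ioi a).const_mul _)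
          measurableSet_Ioi h3
      rw [integral_const_mul, integral_exp_neg_Ioi] at h4
      have h6 : Real.exp (-a) ≤ 1 := Real.exp_le_one_iff.2 (by linarith)
      calc _ ≤ g i * Real.exp (-a) := h4
        _ ≤ g i * 1 := by gcongr; exact hg0 i
        _ = g i := by ring
  exact hV.add hR

end Pool.Agent.W189.ML
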