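import Pool.Agent.H21.L.R_seed8.W189.ML.Adm

/-! The contour integral of `log (z / T - x₀)`. -/

set_option autoImplicit false

namespace Pool.Agent.W189.ML

open Complex MeasureTheory Filter Topology Set
open scoped Interval

/-- the weight `1 / Γ(1 + v)` -/
noncomputable def om (v : ℝ) : ℝ := (Real.Gamma (1 + v))⁻¹

/-- `grow y = ∫_0^∞ (e^{y u} - 1) / (u Γ(1 + u)) du` -/
noncomputable def grow (y : ℝ) : ℝ :=
  ∫ u in Ioi (0 : ℝ), (Real.exp (y * u) - 1) / (u * Real.Gamma (1 + u))

noncomputable def hh (x₀ v : ℝ) : ℝ := if 0 < v then (Real.exp (x₀ * v) - 1) / v else 0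

theorem hh_nonneg {x₀ : ℝ} (h0 : 0 ≤ x₀) (v : ℝ) : 0 ≤ hh x₀ v := by
  unfold hh
  split_ifs with hv
  · refine div_nonneg ?_ hv.le
    have := Real.add_one_le_exp (x₀ * v)
    have : 0 ≤ x₀ * v := by positivity
    linarith
  · exact le_rfl

theorem hh_le {x₀ : ℝ} (h1 : x₀ ≤ 1) (v : ℝ) (hv : 0 ≤ v) : hh x₀ v ≤ Real.exp v := by
  unfold hh
  split_ifs with hv
  · rw [div_le_iff₀ hv]
    have h2 : Real.exp (x₀ * v) - 1 ≤ (x₀ * v) * Real.exp (x₀ * v) := by
      have := Real.add_one_le_exp (-(x₀ * v))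
      have h3 : Real.exp (-(x₀ * v)) * Real.exp (x₀ * v) = 1 := by
        rw [← Real.exp_add]; simp
      nlinarith [Real.exp_pos (x₀ * v)]
    have h3 : x₀ * v ≤ v := by nlinarith
    have h4 : Real.exp (x₀ * v) ≤ Real.exp v := Real.exp_le_exp.2 h3
    calc _ ≤ (x₀ * v) * Real.exp (x₀ * v) := h2
      _ ≤ v * Real.exp v := by gcongr
      _ = _ := by ring
  · exact (Real.exp_pos _).le

theorem hh_measurable (x₀ : ℝ) : Measurable (hh x₀) := by
  unfold hh
  refine Measurable.ite measurableSet_Ioi ?_ measurable_const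
  fun_prop

theorem int_exp {z : ℂ} (hz : 0 < z.re) :
    IntegrableOn (fun v : ℝ => exp (-(z * v))) (Ioi 0) ∧ ∫ v in Ioi (0 : ℝ), exp (-(z * v)) = z⁻¹ := by
  constructor
  · have := integrableOn_exp_mul_complex_Ioi (a := -z) (by simpa using hz) 0
    simpa using this
  · have := integral_exp_mul_complex_Ioi (a := -z) (by simpa using hz) 0
    simpa using this

theorem frullani {x₀ : ℝ} (h0 : 0 ≤ x₀) (h1 : x₀ ≤ 1) {z : ℂ} (hz : 2 ≤ z.re) :
    log z - log (z - x₀) = ∫ v in Ioi (0 : ℝ), exp (-(z * v)) * (hh x₀ v : ℂ) := by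
  -- left side as an integral
  have e1 : ∫ x in (0 : ℝ)..x₀, (z - x)⁻¹ = log z - log (z - x₀) := by
    have h2 : ∀ x ∈ [[(0 : ℝ), x₀]], HasDerivAt (fun x : ℝ => -log (z - x)) ((z - x)⁻¹) x := by
      intro x hx
      rw [uIcc_of_le h0] at hx
      have h3 : z - x ∈ slitPlane := by
        left
        simp
        linarith [hx.2]
      have h4 : HasDerivAt (fun x : ℝ => z - (x : ℂ)) (-1) x := by
        have := (hasDerivAt_id x).ofReal_comp.const_sub z
        simpa using this
      have h5 := (Complex.hasDerivAt_log h3).comp x h4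
      have h6 := h5.neg
      refine h6.congr_deriv ?_
      ring
    have h3 := intervalIntegral.integral_eq_sub_of_hasDerivAt h2 ?_
    · rw [h3]
      simp
      ring
    · refine ContinuousOn.intervalIntegrable ?_
      refine ContinuousOn.inv₀ (by fun_prop) fun x hx => ?_
      rw [uIcc_of_le h0] at hx
      intro h4
      have := congrArg Complex.re h4
      simp at this
      linarith [hx.2]
  rw [← e1, intervalIntegral.integral_of_le h0]
  have e2 : ∫ x in Ioc 0 x₀, (z - (x : ℂ))⁻¹ =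
      ∫ x in Ioc 0 x₀, ∫ v in Ioi (0 : ℝ), exp (-((z - (x : ℂ)) * v)) := by
    refine setIntegral_congr_fun measurableSet_Ioc fun x hx => ?_
    rw [(int_exp (z := z - x) (by simp; linarith [hx.2])).2]
  rw [e2]
  have hint : Integrable (Function.uncurry fun (x v : ℝ) => exp (-((z - (x : ℂ)) * v)))
      ((volume.restrict (Ioc 0 x₀)).prod (volume.restrict (Ioi (0 : ℝ)))) := by
    have i1 : Integrable (fun _ : ℝ => (1 : ℝ)) (volume.restrict (Ioc 0 x₀)) :=
      integrableOn_const (by simp) (by simp)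
    have i2 : Integrable (fun v : ℝ => Real.exp (-v)) (volume.restrict (Ioi (0 : ℝ))) :=
      integrableOn_exp_neg_Ioi 0
    refine Integrable.mono' (i1.mul_prod i2) ?_ ?_
    · exact (by unfold Function.uncurry; fun_prop : Continuous (Function.uncurry fun (x v : ℝ) =>
        exp (-((z - (x : ℂ)) * v)))).aestronglyMeasurable
    · rw [Measure.prod_restrict]
      filter_upwards [ae_restrict_mem (measurableSet_Ioc.prod measurableSet_Ioi)] with q hq
      obtain ⟨hq1, hq2⟩ := hq
      have hq2' : 0 < q.2 := hq2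
      simp only [Function.uncurry]
      rw [Complex.norm_exp, one_mul]
      apply Real.exp_le_exp.2
      have : (-((z - (q.1 : ℂ)) * q.2)).re = -((z.re - q.1) * q.2) := by simp
      rw [this]
      have := hq1.2
      nlinarith
  rw [integral_integral_swap hint]
  refine setIntegral_congr_fun measurableSet_Ioi fun v hv => ?_
  have hv' : 0 < v := hv
  have e3 : ∀ x : ℝ, exp (-((z - (x : ℂ)) * v)) = exp (-(z * v)) * ((Real.exp (x * v) : ℝ) : ℂ) := by
    intro x
    push_cast
    rw [← Complex.exp_add]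
    congr 1
    ring
  simp only [e3]
  rw [integral_const_mul]
  congr 1
  rw [integral_complex_ofReal]
  congr 1
  rw [← intervalIntegral.integral_of_le h0]
  unfold hh
  rw [if_pos hv', intervalIntegral.integral_comp_mul_right (fun x => Real.exp x) hv'.ne',
    integral_exp, smul_eq_mul]
  simp
  field_simp

theorem norm_log_le {z : ℂ} (hz : 1 ≤ z.re) : ‖log z‖ ≤ ‖z‖ + 2 := by
  have h1 : 1 ≤ ‖z‖ := hz.trans (Complex.re_le_norm z)
  have h2 : ‖log z‖ ≤ |(log z).re| + |(log z).im| := Complex.norm_le_abs_re_add_abs_im _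
  rw [Complex.log_re, Complex.log_im] at h2
  have h3 : |Real.log ‖z‖| ≤ ‖z‖ := by
    rw [abs_of_nonneg (Real.log_nonneg h1)]
    exact (Real.log_le_sub_one_of_pos (by linarith)).trans (by linarith)
  have h4 : |arg z| ≤ Real.pi / 2 := by
    have : |arg z| < Real.pi / 2 := Complex.abs_arg_lt_pi_div_two_iff.2 (Or.inl (by linarith))
    exact this.le
  have := Real.pi_lt_four
  linarith

theorem adm_log {T b x₀ : ℝ} (hT : 1 ≤ T) (h0 : 0 ≤ x₀) (h1 : x₀ ≤ 1) (hb : 2 * T ≤ b) :
    Adm b (fun z => log (z / T - x₀)) ∧ (∀ z ∈ HS b, ‖log (z / T - x₀)‖ ≤ 7 + 1 * z.re) := by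
  have hT0 : (0 : ℝ) < T := by linarith
  have hre : ∀ z : ℂ, z ∈ HS b → 1 ≤ (z / T - x₀).re := by
    intro z hz
    have h2 : (z / T - x₀).re = z.re / T - x₀ := by simp
    rw [h2]
    have : 2 ≤ z.re / T := by
      rw [le_div_iff₀ hT0]
      exact hb.trans hz.1
    linarith
  have hbd : ∀ z ∈ HS b, ‖log (z / T - x₀)‖ ≤ 7 + 1 * z.re := by
    intro z hz
    refine (norm_log_le (hre z hz)).trans ?_
    have hz0 : 0 ≤ z.re := by have := hz.1; linarith
    have h3 : ‖z / T - x₀‖ ≤ ‖z‖ + 1 := by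
      refine (norm_sub_le _ _).trans ?_
      rw [norm_div, Complex.norm_real, Complex.norm_real, Real.norm_eq_abs, Real.norm_eq_abs,
        abs_of_pos hT0, abs_of_nonneg h0]
      have : ‖z‖ / T ≤ ‖z‖ := div_le_self (norm_nonneg _) hT
      linarith
    have h4 : ‖z‖ ≤ z.re + 4 := by
      have h5 := Complex.norm_le_abs_re_add_abs_im z
      rw [abs_of_nonneg hz0] at h5
      have h6 := hz.2
      have := Real.pi_lt_four
      linarith
    linarith
  refine ⟨⟨?_, 7, 1, by norm_num, by norm_num, hbd⟩, hbd⟩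
  refine ContinuousOn.clog (by fun_prop) fun z hz => ?_
  left
  have := hre z hz
  linarith

theorem hh_int {x₀ : ℝ} (h1 : x₀ ≤ 1) (h0 : 0 ≤ x₀) :
    Integrable (fun v => Real.exp (-(2 * v)) * hh x₀ v) (volume.restrict (Ioi 0)) := by
  have i2 : Integrable (fun v : ℝ => Real.exp (-v)) (volume.restrict (Ioi (0 : ℝ))) :=
    integrableOn_exp_neg_Ioi 0
  refine Integrable.mono' i2 ?_ ?_
  · exact ((by fun_prop : Measurable fun v : ℝ => Real.exp (-(2 * v))).mul
      (hh_measurable x₀)).aestronglyMeasurable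
  · filter_upwards [ae_restrict_mem measurableSet_Ioi] with v hv
    have hv' : (0 : ℝ) < v := hv
    rw [Real.norm_eq_abs, abs_of_nonneg (mul_nonneg (Real.exp_pos _).le (hh_nonneg h0 v))]
    calc _ ≤ Real.exp (-(2 * v)) * Real.exp v := by
          gcongr; exact hh_le h1 v hv'.le
      _ = Real.exp (-v) := by rw [← Real.exp_add]; congr 1; ring

theorem J_D {T b x₀ : ℝ} (hT : 1 ≤ T) (h0 : 0 ≤ x₀) (h1 : x₀ ≤ 1) (hb : 2 * T ≤ b) :
    J b (fun z => ∫ v in Ioi (0 : ℝ), exp (-(z / T * v)) * (hh x₀ v : ℂ)) = grow (x₀ * T) := by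
  have hT0 : (0 : ℝ) < T := by linarith
  have hb0 : 0 ≤ b := by linarith
  have e1 := J_swap (a := b) hb0 (μ := volume.restrict (Ioi (0 : ℝ)))
    (F := fun v z => exp (-(z / T * v)) * (hh x₀ v : ℂ)) (g := fun v => Real.exp (-(2 * v)) * hh x₀ v)
    (hh_int h1 h0) ?_ ?_
  · rw [e1]
    have e2 : ∀ v : ℝ, J b (fun z => exp (-(z / T * v)) * (hh x₀ v : ℂ)) =
        ((hh x₀ v * om (v / T) : ℝ) : ℂ) := by
      intro v
      have e3 : (fun z : ℂ => exp (-(z / T * v)) * (hh x₀ v : ℂ)) =
          fun z => (hh x₀ v : ℂ) * exp (-(z * ((v / T : ℝ) : ℂ))) := by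
        funext z
        rw [mul_comm]
        congr 2
        push_cast
        ring
      rw [e3, J_const_mul, J_exp]
      unfold om
      push_cast
      rfl
    simp only [e2]
    rw [integral_complex_ofReal]
    congr 1
    unfold grow
    have e4 := integral_comp_mul_left_Ioi (fun v => hh x₀ v * om (v / T)) 0 hT0
    rw [mul_zero, smul_eq_mul] at e4
    have e5 : ∫ v in Ioi (0 : ℝ), hh x₀ v * om (v / T) =
        T * ∫ x in Ioi (0 : ℝ), hh x₀ (T * x) * om (T * x / T) := by
      rw [e4]; field_simp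
    rw [e5, ← integral_const_mul]
    refine setIntegral_congr_fun measurableSet_Ioi fun u hu => ?_
    have hu' : (0 : ℝ) < u := hu
    have hg : Real.Gamma (1 + u) ≠ 0 := (Real.Gamma_pos_of_pos (by linarith)).ne'
    unfold hh om
    rw [if_pos (by positivity), mul_div_cancel_left₀ _ hT0.ne']
    field_simp
  · refine Measurable.stronglyMeasurable ?_
    unfold Function.uncurry
    have hm := hh_measurable x₀
    refine Measurable.mul (by fun_prop) ?_
    exact Complex.measurable_ofReal.comp (hm.comp measurable_fst)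
  · intro v z hz
    rw [norm_mul, Complex.norm_real, Real.norm_eq_abs, abs_of_nonneg (hh_nonneg h0 v)]
    by_cases hv : 0 < v
    · refine mul_le_mul_of_nonneg_right ?_ (hh_nonneg h0 v)
      rw [Complex.norm_exp]
      apply Real.exp_le_exp.2
      have h2 : (-(z / T * v)).re = -(z.re / T * v) := by simp
      rw [h2]
      have : 2 ≤ z.re / T := by
        rw [le_div_iff₀ hT0]
        exact hb.trans hz.1
      nlinarith
    · unfold hh
      rw [if_neg hv]
      simp

/-- the contour integral of `log (z / T - x₀)` -/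
theorem J_log {T b x₀ : ℝ} (hT : 1 ≤ T) (h0 : 0 ≤ x₀) (h1 : x₀ ≤ 1) (hb : 2 * T ≤ b) :
    J b (fun z => log (z / T - x₀)) = J 1 log - Real.log T - grow (x₀ * T) := by
  have hT0 : (0 : ℝ) < T := by linarith
  have hb0 : 0 ≤ b := by linarith
  have hb1 : 1 ≤ b := by linarith
  have hTc : (T : ℂ) ≠ 0 := by exact_mod_cast hT0.ne'
  have e1 : ∀ z ∈ HS b, log (z / T - x₀) =
      log (z / T) - ∫ v in Ioi (0 : ℝ), exp (-(z / T * v)) * (hh x₀ v : ℂ) := by
    intro z hz
    have h2 : 2 ≤ (z / T).re := by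
      have : (z / T).re = z.re / T := by simp
      rw [this, le_div_iff₀ hT0]
      exact hb.trans hz.1
    rw [← frullani h0 h1 h2]
    ring
  have a1 : Adm b (fun z => log (z / T)) := by
    have := (adm_log (x₀ := 0) hT le_rfl zero_le_one hb).1
    simpa using this
  have a2 := (adm_log hT h0 h1 hb).1
  have a3 : Adm b (fun z => ∫ v in Ioi (0 : ℝ), exp (-(z / T * v)) * (hh x₀ v : ℂ)) := by
    have h3 : ∀ z ∈ HS b, log (z / T) - log (z / T - x₀) =
        ∫ v in Ioi (0 : ℝ), exp (-(z / T * v)) * (hh x₀ v : ℂ) := by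
      intro z hz
      rw [e1 z hz]
      ring
    refine ⟨(a1.cont.sub a2.cont).congr fun z hz => (h3 z hz).symm, ?_⟩
    obtain ⟨A, B, hA, hB, h4⟩ := a1.bound
    obtain ⟨A', B', hA', hB', h5⟩ := a2.bound
    refine ⟨A + A', B + B', by positivity, by positivity, fun z hz => ?_⟩
    rw [← h3 z hz]
    refine (norm_sub_le _ _).trans ?_
    have := h4 z hz
    have := h5 z hz
    linarith
  rw [J_congr e1, J_sub hb0 a1 a3, J_D hT h0 h1 hb]
  congr 1
  -- J b (log (z / T)) = J 1 log - log T
  have e2 : ∀ z ∈ HS b, log (z / T) = log z - Real.log T * exp (-(z * ((0 : ℝ) : ℂ))) := by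
    intro z hz
    have hz0 : z ≠ 0 := by
      intro h; rw [h] at hz
      have := hz.1
      simp at this
      linarith
    have h3 : z / T = ((T⁻¹ : ℝ) : ℂ) * z := by push_cast; field_simp
    rw [h3, Complex.log_ofReal_mul (by positivity) hz0, Real.log_inv]
    simp
    ring
  have a4 : Adm 1 log := by
    refine ⟨?_, 7, 1, by norm_num, by norm_num, ?_⟩
    · intro z hz
      refine (continuousAt_clog ?_).continuousWithinAt
      left
      have := hz.1
      linarith
    · intro z hz
      refine (norm_log_le hz.1).trans ?_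
      have h5 := Complex.norm_le_abs_re_add_abs_im z
      rw [abs_of_nonneg (by have := hz.1; linarith : 0 ≤ z.re)] at h5
      have h6 := hz.2
      have := Real.pi_lt_four
      linarith
  have a5 : Adm b (fun z => (Real.log T : ℂ) * exp (-(z * ((0 : ℝ) : ℂ)))) := by
    refine ⟨by fun_prop, |Real.log T|, 0, abs_nonneg _, le_rfl, fun z _ => ?_⟩
    simp
  rw [J_congr e2, J_sub hb0 (a4.mono hb1) a5, J_const_mul, J_exp_zero, mul_one]
  congr 1
  symm
  refine J_shift' zero_le_one hb1 a4 ?_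
  intro z hz
  refine (differentiableAt_id.clog ?_).differentiableWithinAt
  left
  have := hz.1
  simp only [id]
  linarith

end Pool.Agent.W189.ML
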