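import Pool.Agent.H21.L.R_seed8.W189.ML.Star
import Pool.Agent.H21.L.R_seed8.W263.BSD.Final

/-! The correction function of an Euler product is bounded in sectors. -/

set_option autoImplicit false

namespace Pool.Agent.W189.ML

open MeasureTheory Filter Topology Set Classical
open Pool.Agent.W263.BSD

theorem norm_exp_sub_one_le_of_re {z : ℂ} (hz : z.re ≤ 0) : ‖Complex.exp z - 1‖ ≤ ‖z‖ := by
  have h1 : Convex ℝ {w : ℂ | w.re ≤ 0} := convex_halfSpace_re_le 0
  have h2 := h1.norm_image_sub_le_of_norm_hasDerivWithin_le (f := Complex.exp) (f' := Complex.exp)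
    (C := 1) (x := 0) (y := z) (fun w _ => (Complex.hasDerivAt_exp w).hasDerivWithinAt)
    (fun w hw => by
      rw [Complex.norm_exp]
      exact Real.exp_le_one_iff.2 hw) (by simp) hz
  simpa using h2

/-- `σ ∑ log p p^{-1-σ}` is bounded near `0` -/
theorem log_sum_bound : ∃ C σ₀ : ℝ, 0 < σ₀ ∧ ∀ σ : ℝ, 0 < σ → σ < σ₀ →
    Summable (fun p : Nat.Primes => Real.log p * (p : ℝ) ^ (-(1 + σ))) ∧
    σ * ∑' p : Nat.Primes, Real.log p * (p : ℝ) ^ (-(1 + σ)) ≤ C := by
  obtain ⟨C, hC⟩ := Pool.Agent.H341R2.lam_bounded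
  obtain ⟨ε₀, hε₀, h1⟩ : ∃ ε₀ > 0, ∀ ε : ℝ, 0 < ε → ε < ε₀ →
      |Pool.Agent.H341R2.lam ε + Real.log ε| ≤ C := by
    rw [eventually_nhdsWithin_iff, Metric.eventually_nhds_iff] at hC
    obtain ⟨ε₀, hε₀, h⟩ := hC
    refine ⟨ε₀, hε₀, fun ε h3 h4 => h (y := ε) ?_ h3⟩
    rw [Real.dist_eq, sub_zero, abs_of_pos h3]
    exact h4
  refine ⟨2 * (2 * C + Real.log 2), ε₀, hε₀, fun σ hσ hσ0 => ?_⟩
  set ε := σ / 2 with hε
  have hε1 : 0 < ε := by positivity
  have hs1 := summable_primes (w := ε) hε1
  have hs2 := summable_primes (w := 2 * ε) (by positivity)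
  have h2 := h1 ε hε1 (by linarith)
  have h3 := h1 (2 * ε) (by positivity) (by linarith)
  have key : ∀ p : Nat.Primes, ε * (Real.log p * (p : ℝ) ^ (-(1 + σ))) ≤
      (p : ℝ) ^ (-(1 + ε)) - (p : ℝ) ^ (-(1 + 2 * ε)) := by
    intro p
    have hp0 : (0 : ℝ) < p := by exact_mod_cast p.2.pos
    have hp1 : (1 : ℝ) ≤ p := by exact_mod_cast p.2.one_le
    have hσε : σ = 2 * ε := by rw [hε]; ring
    rw [hσε]
    set y := ε * Real.log p with hy
    have e1 : (p : ℝ) ^ (-(1 + ε)) = (p : ℝ) ^ (-(1 + 2 * ε)) * Real.exp y := by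
      rw [Real.rpow_def_of_pos hp0, Real.rpow_def_of_pos hp0, ← Real.exp_add]
      congr 1
      rw [hy]; ring
    have e2 : y + 1 ≤ Real.exp y := Real.add_one_le_exp y
    have e3 : 0 < (p : ℝ) ^ (-(1 + 2 * ε)) := by positivity
    rw [e1]
    have e4 : ε * (Real.log p * (p : ℝ) ^ (-(1 + 2 * ε))) = (p : ℝ) ^ (-(1 + 2 * ε)) * y := by
      rw [hy]; ring
    rw [e4]
    nlinarith
  have hnn : ∀ p : Nat.Primes, 0 ≤ ε * (Real.log p * (p : ℝ) ^ (-(1 + σ))) := by
    intro p
    have hp1 : (1 : ℝ) ≤ p := by exact_mod_cast p.2.one_le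
    have := Real.log_nonneg hp1
    positivity
  have hsum : Summable (fun p : Nat.Primes => ε * (Real.log p * (p : ℝ) ^ (-(1 + σ)))) :=
    Summable.of_nonneg_of_le hnn key (hs1.sub hs2)
  have hle := hsum.tsum_le_tsum key (hs1.sub hs2)
  rw [hs1.tsum_sub hs2] at hle
  have e5 : ∑' p : Nat.Primes, (p : ℝ) ^ (-(1 + ε)) = Pool.Agent.H341R2.lam ε := rfl
  have e6 : ∑' p : Nat.Primes, (p : ℝ) ^ (-(1 + 2 * ε)) = Pool.Agent.H341R2.lam (2 * ε) := rfl
  rw [e5, e6] at hle
  constructor
  · have := hsum.mul_left ε⁻¹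
    refine this.congr fun p => ?_
    field_simp
  · rw [tsum_mul_left] at hle
    have h4 := abs_le.mp h2
    have h5 := abs_le.mp h3
    rw [Real.log_mul (by norm_num) hε1.ne'] at h5
    have h6 : σ = 2 * ε := by rw [hε]; ring
    nth_rewrite 1 [h6]
    nlinarith [h4.1, h4.2, h5.1, h5.2]

variable {S : Set ℕ} {A : ℕ → ℝ}

theorem xp_eq {p : ℕ} (hp : 1 ≤ p) (w : ℂ) : xp p w = Complex.exp (-(w * Real.log p)) := by
  unfold xp
  have hp0 : (p : ℂ) ≠ 0 := by exact_mod_cast (show p ≠ 0 by omega)
  rw [Complex.cpow_def_of_ne_zero hp0, ← Complex.ofReal_natCast, ← Complex.ofReal_log (by positivity)]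
  congr 1
  ring

/-- the correction function is bounded in the sector `‖w‖ ≤ 5 Re w` -/
theorem GG_sector (E : EData S A) : ∃ C : ℝ, ∀ w : ℂ, 0 < w.re → ‖w‖ ≤ 5 * w.re →
    ‖GG S A w‖ ≤ C := by
  obtain ⟨C, σ₀, hσ₀, hC⟩ := log_sum_bound
  set δ := σ₀ / 2 with hδ
  have hδ0 : 0 < δ := by positivity
  set B1 : ℝ := ∑' p : ℕ, 60 * (p : ℝ) ^ (-(3 / 2) : ℝ) with hB1
  set B2 : ℝ := ∑' p : ℕ, (2 * (p : ℝ) ^ (-1 - δ) + 60 * (p : ℝ) ^ (-(3 / 2) : ℝ)) with hB2
  refine ⟨max (5 * C + B1) B2, fun w hw hw5 => ?_⟩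
  by_cases hc : δ < w.re
  · refine le_max_of_le_right ?_
    unfold GG
    exact tsum_of_norm_bounded (summable_bound hδ0).hasSum fun p => E.gterm_norm hδ0 p hc
  · refine le_max_of_le_left ?_
    push Not at hc
    obtain ⟨hs, hle⟩ := hC w.re hw (by linarith)
    set f : ℕ → ℝ := fun p => ‖w‖ * (Real.log p * (p : ℝ) ^ (-(1 + w.re))) with hf
    have hs' : Summable (fun p : Nat.Primes => f p) := hs.mul_left ‖w‖
    have hf1 : Summable (({p : ℕ | p.Prime}).indicator f) :=
      (summable_subtype_iff_indicator (f := f) (s := {p : ℕ | p.Prime})).mp hs'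
    have hf2 : ∑' p, ({p : ℕ | p.Prime}).indicator f p =
        ‖w‖ * ∑' p : Nat.Primes, Real.log p * (p : ℝ) ^ (-(1 + w.re)) := by
      rw [← tsum_mul_left]
      exact (tsum_subtype {p : ℕ | p.Prime} f).symm
    have hg1 : Summable fun p : ℕ => 60 * (p : ℝ) ^ (-(3 / 2) : ℝ) :=
      (Real.summable_nat_rpow.mpr (by norm_num)).mul_left _
    have hb : ∀ p, ‖gterm S A p w‖ ≤ ({p : ℕ | p.Prime}).indicator f p +
        60 * (p : ℝ) ^ (-(3 / 2) : ℝ) := by
      intro p
      by_cases hp : p ∈ S
      · have h25 := E.big p hp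
        have hp1 : (1 : ℝ) ≤ p := by exact_mod_cast (show 1 ≤ p by omega)
        have hp0 : (0 : ℝ) < p := by linarith
        rw [indicator_of_mem (show p ∈ {p : ℕ | p.Prime} from E.prime p hp)]
        have h4 := E.gterm_main hp (w := w) hw.le
        rw [dl_cube (by omega)] at h4
        have hlog : 0 ≤ Real.log p := Real.log_nonneg hp1
        have h5 : ‖(mm A p * (xp p w - xp p w ^ 2) : ℂ)‖ ≤ f p := by
          have e1 : ‖1 - xp p w‖ ≤ ‖w‖ * Real.log p := by
            rw [xp_eq (by omega), norm_sub_rev]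
            refine (norm_exp_sub_one_le_of_re ?_).trans (le_of_eq ?_)
            · have : (-(w * Real.log p)).re = -(w.re * Real.log p) := by
                rw [Complex.neg_re, Complex.re_mul_ofReal]
              rw [this]
              have := mul_nonneg hw.le hlog
              linarith
            · rw [norm_neg, norm_mul, Complex.norm_real, Real.norm_eq_abs, abs_of_nonneg hlog]
          have e2 : (mm A p * (xp p w - xp p w ^ 2) : ℂ) = mm A p * (xp p w * (1 - xp p w)) := by ring
          rw [e2, norm_mul, norm_mul, Complex.norm_real, Real.norm_eq_abs, norm_xp (by omega)]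
          have e3 : (p : ℝ) ^ (-(1 + w.re)) = 1 / p * (p : ℝ) ^ (-w.re) := by
            rw [show (-(1 + w.re) : ℝ) = -1 + -w.re by ring, Real.rpow_add hp0, Real.rpow_neg_one,
              one_div]
          rw [hf]
          simp only
          rw [e3]
          calc |mm A p| * ((p : ℝ) ^ (-w.re) * ‖1 - xp p w‖) ≤
              (1 / p) * ((p : ℝ) ^ (-w.re) * (‖w‖ * Real.log p)) := by
                have := E.mm_le hp
                gcongr
            _ = _ := by ring
        have h8 : ‖gterm S A p w‖ ≤ ‖gterm S A p w - mm A p * (xp p w - xp p w ^ 2)‖ +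
            ‖(mm A p * (xp p w - xp p w ^ 2) : ℂ)‖ := by
          have := norm_add_le (gterm S A p w - mm A p * (xp p w - xp p w ^ 2))
            (mm A p * (xp p w - xp p w ^ 2))
          rwa [sub_add_cancel] at this
        linarith
      · unfold gterm
        rw [if_neg hp, norm_zero]
        refine add_nonneg ?_ (by positivity)
        refine indicator_nonneg (fun q hq => ?_) p
        have hq' : q.Prime := hq
        have hq1 : (1 : ℝ) ≤ q := by exact_mod_cast hq'.one_le
        have := Real.log_nonneg hq1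
        rw [hf]
        positivity
    have h9 : ‖GG S A w‖ ≤ ∑' p, (({p : ℕ | p.Prime}).indicator f p +
        60 * (p : ℝ) ^ (-(3 / 2) : ℝ)) := by
      unfold GG
      exact tsum_of_norm_bounded (hf1.add hg1).hasSum hb
    rw [hf1.tsum_add hg1, hf2] at h9
    have h10 : ‖w‖ * ∑' p : Nat.Primes, Real.log p * (p : ℝ) ^ (-(1 + w.re)) ≤ 5 * C := by
      have h11 : 0 ≤ ∑' p : Nat.Primes, Real.log p * (p : ℝ) ^ (-(1 + w.re)) := by
        refine tsum_nonneg fun p => ?_
        have hp1 : (1 : ℝ) ≤ p := by exact_mod_cast p.2.one_le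
        have := Real.log_nonneg hp1
        positivity
      calc _ ≤ (5 * w.re) * ∑' p : Nat.Primes, Real.log p * (p : ℝ) ^ (-(1 + w.re)) := by gcongr
        _ ≤ 5 * C := by linarith
    linarith

/-- the data for the abstract theorem -/
theorem sdata (E : EData S A) : SData (fun p : ℕ => Real.log p) (fun p => if p ∈ S then cc A p else 0)
    (GG S A) where
  lam_pos := fun p => Real.log_natCast_nonneg p
  sum := by
    refine Summable.of_nonneg_of_le (fun p => by positivity) (fun p => ?_)
      (Real.summable_nat_rpow.mpr (by norm_num : (-2 : ℝ) < -1))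
    by_cases hp : p ∈ S
    · have h25 := E.big p hp
      have hp0 : (0 : ℝ) < p := by
        have : 0 < p := by omega
        exact_mod_cast this
      rw [if_pos hp]
      have h1 : Real.exp (-(2 * Real.log p)) = (p : ℝ) ^ (-2 : ℝ) := by
        rw [Real.rpow_def_of_pos hp0]
        congr 1
        ring
      rw [h1]
      have := E.cc_abs hp
      have h2 : 0 ≤ (p : ℝ) ^ (-2 : ℝ) := by positivity
      nlinarith
    · rw [if_neg hp]
      simp
  Gd := fun w hw => E.GG_differentiable hw
  Gb := GG_sector E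
  G2 := by
    have := E.GG_im (w := 2) (by norm_num)
    simpa using this

/-- the Euler product is the exponential of the correction function minus the series -/
theorem exp_eq (E : EData S A) {w : ℂ} (hw : 1 < w.re) {y : ℂ}
    (hprod : HasProd (fun p => if p ∈ S then (fac A p (xp p w))⁻¹ else 1) y) :
    Complex.exp (GG S A w - ser (fun p : ℕ => Real.log p) (fun p => if p ∈ S then cc A p else 0) w) =
      y := by
  have h2 := (E.gterm_summable (by linarith : 0 < w.re)).hasSum
  have hsum : Summable fun p : ℕ => ((if p ∈ S then cc A p else 0 : ℝ) : ℂ) *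
      Complex.exp (-(w * Real.log p)) := by
    refine Summable.of_norm_bounded (Real.summable_nat_rpow.mpr (by linarith : -w.re < -1)) fun p => ?_
    by_cases hp : p ∈ S
    · have h25 := E.big p hp
      rw [if_pos hp, ← xp_eq (by omega), norm_mul, norm_xp (by omega), Complex.norm_real,
        Real.norm_eq_abs]
      have := E.cc_abs hp
      have h3 : 0 ≤ (p : ℝ) ^ (-w.re) := by positivity
      nlinarith
    · rw [if_neg hp]
      simp
      positivity
  have h3 := h2.sub hsum.hasSum
  have h4 : (fun p => gterm S A p w - ((if p ∈ S then cc A p else 0 : ℝ) : ℂ) *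
      Complex.exp (-(w * Real.log p))) =
      fun p => if p ∈ S then -Complex.log (fac A p (xp p w)) else 0 := by
    funext p
    unfold gterm
    split_ifs with hp
    · have h25 := E.big p hp
      rw [← xp_eq (by omega)]
      ring
    · simp
  rw [h4] at h3
  have h5 := h3.cexp
  have h6 : (Complex.exp ∘ fun p => if p ∈ S then -Complex.log (fac A p (xp p w)) else 0) =
      fun p => if p ∈ S then (fac A p (xp p w))⁻¹ else 1 := by
    funext p
    simp only [Function.comp_apply]
    split_ifs with h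
    · rw [Complex.exp_neg, Complex.exp_log]
      have h25 := E.big p h
      have := factor_slit (dl_nonneg p) (dl_le h25) (E.tt_le h)
        (norm_xp_le (p := p) (by omega) (by linarith : 0 ≤ w.re))
      exact Complex.slitPlane_ne_zero this
    · simp
  rw [h6] at h5
  exact h5.unique hprod

/-- continuity of the series at `2` -/
theorem ser_cont_two (E : EData S A) : ContinuousAt (ser (fun p : ℕ => Real.log p)
    (fun p => if p ∈ S then cc A p else 0)) 2 := by
  have hc : ContinuousOn (ser (fun p : ℕ => Real.log p)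
      (fun p => if p ∈ S then cc A p else 0)) {w : ℂ | 3 / 2 < w.re} := by
    unfold ser
    refine continuousOn_tsum (u := fun p : ℕ => (p : ℝ) ^ (-(3 / 2) : ℝ)) (fun i => by fun_prop)
      (Real.summable_nat_rpow.mpr (by norm_num)) fun p w hw => ?_
    have hw' : 3 / 2 < w.re := hw
    beta_reduce
    by_cases hp : p ∈ S
    · have h25 := E.big p hp
      rw [if_pos hp, ← xp_eq (by omega), norm_mul, norm_xp (by omega), Complex.norm_real,
        Real.norm_eq_abs]
      have := E.cc_abs hp
      have h3 : 0 ≤ (p : ℝ) ^ (-w.re) := by positivity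
      have h4 : (p : ℝ) ^ (-w.re) ≤ (p : ℝ) ^ (-(3 / 2) : ℝ) :=
        Real.rpow_le_rpow_of_exponent_le (by exact_mod_cast (show 1 ≤ p by omega)) (by linarith)
      nlinarith
    · rw [if_neg hp]
      simp
      positivity
  refine hc.continuousAt (IsOpen.mem_nhds (isOpen_lt continuous_const Complex.continuous_re) ?_)
  simp
  norm_num

end Pool.Agent.W189.ML
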